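import Pool.Agent.Helper32.FR.Defs
import Pool.Agent.Helper6.BA.ResGlue

/-!
# Project FR, module B1: the embedding of the algebra of the iteration into the final algebra
-/

set_option autoImplicit false
set_option linter.unusedSectionVars false

namespace Pool.Agent.Helper32.FR

open Pool.Agent.Helper33.HM Pool.Agent.Helper94.BA

universe u

variable {Ω : Type} [LinearOrder Ω] {I : Type 1} [LinearOrder I]

/-- A chain remains a chain in a stronger condition. -/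
theorem h45_chn_mono {p q : TC Ω} (h : q ≤ p) {c : Finset Ω} (hc : p.Chn c) : q.Chn c := by
  obtain ⟨h1, -, h3, -, -⟩ := TC.le_def.1 h
  refine ⟨hc.1.trans h1, fun x hx y hy => ?_⟩
  have := hc.2 x hx y hy
  unfold TC.Cmp at this ⊢
  rw [h3 x (hc.1 hx) y (hc.1 hy), h3 y (hc.1 hy) x (hc.1 hx)]
  exact this

variable {F : I → Set (Name (PB Ω) I)} {ℓ : I}

/-- Strengthening the first coordinate. -/
theorem h45_lift (w : FT F ℓ) (q : Cnd F ℓ) (hq : q ≤ w.1.1) :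
    ∃ r : FT F ℓ, r ≤ w ∧ r.1.1 = q ∧ r.1.2 = w.1.2 := by
  have h1 : q.1.base ≤ w.1.1.1.base := base_mono hq
  have h2 : q.1.base.down ≤ w.1.1.1.base.down := h1
  exact ⟨⟨(q, w.1.2), h45_chn_mono h2 w.2⟩, FT.le_def.2 ⟨hq, subset_rfl⟩, rfl, rfl⟩

theorem mem_eN {U : RO (Cnd F ℓ)} {w : FT F ℓ} : w ∈ eN U ↔ w.1.1 ∈ U :=
  h6_mem_proj (π := fun w : FT F ℓ => w.1.1) (fun _ _ h => (FT.le_def.1 h).1)
    (fun p q hq => (h45_lift p q hq).imp fun _ h => ⟨h.1, h.2.1⟩)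

theorem eN_ce : CE (eN : RO (Cnd F ℓ) → RO (FT F ℓ)) :=
  h6_ce_proj (π := fun w : FT F ℓ => w.1.1) (fun _ _ h => (FT.le_def.1 h).1)
    (fun p q hq => (h45_lift p q hq).imp fun _ h => ⟨h.1, h.2.1⟩)
    (fun q => ⟨⟨(q, ∅), Finset.empty_subset _, fun x hx => absurd hx (Finset.notMem_empty x)⟩,
      rfl⟩)

theorem mem_brN {x : Ω} {w : FT F ℓ} : w ∈ (brN x : RO (FT F ℓ)) ↔
    ∀ v, v ≤ w → ∃ u : FT F ℓ, u ≤ v ∧ x ∈ u.1.2 := by
  unfold brN
  rw [RO.mem_gen]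
  constructor
  · intro h v hv
    obtain ⟨u, hu, a, ha, hua⟩ := h v hv
    exact ⟨u, hu, hua.2 ha⟩
  · intro h v hv
    obtain ⟨u, hu, hx⟩ := h v hv
    exact ⟨u, hu, u, hx, le_rfl⟩

end Pool.Agent.Helper32.FR
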